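import Pool.Agent.C4N.Stm2
import Pool.Agent.Helper13_Conc.Tools
import Pool.Agent.Helper29_C4N.Ebl

/-!
# Module CHN: good choices for the chains of relocations
-/

set_option autoImplicit false
set_option linter.unusedSectionVars false
set_option linter.unusedVariables false

open scoped BigOperators Classical

noncomputable section

namespace Pool.Agent.C4N.H81

open Finset
open Pool.Agent.LAG (near)
open Pool.Agent.Helper13_Conc
open Pool.Agent.C4N

/-! ## probabilities -/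

section prob

variable {V α : Type} [Fintype V] [DecidableEq V] [Fintype α] [Nonempty α]

/-- the probability -/
def pr (P : (V → α) → Prop) : ℝ := mean (fun ω => if P ω then (1 : ℝ) else 0)

theorem pr_def (P : (V → α) → Prop) [DecidablePred P] :
    pr P = mean (fun ω => if P ω then (1 : ℝ) else 0) := by
  unfold pr
  congr 1
  funext ω
  by_cases h : P ω
  · rw [if_pos h, if_pos h]
  · rw [if_neg h, if_neg h]

theorem pr_nonneg (P : (V → α) → Prop) : 0 ≤ pr P :=
  mean_nonneg fun ω => by split_ifs <;> norm_num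

theorem pr_mono {P Q : (V → α) → Prop} (h : ∀ ω, P ω → Q ω) : pr P ≤ pr Q := by
  refine mean_mono fun ω => ?_
  by_cases hP : P ω
  · rw [if_pos hP, if_pos (h ω hP)]
  · rw [if_neg hP]
    split_ifs <;> norm_num

theorem pr_or {P Q R : (V → α) → Prop} (h : ∀ ω, R ω → P ω ∨ Q ω) : pr R ≤ pr P + pr Q := by
  unfold pr
  rw [← mean_add]
  refine mean_mono fun ω => ?_
  by_cases hR : R ω
  · rw [if_pos hR]
    rcases h ω hR with h1 | h1
    · rw [if_pos h1]
      split_ifs <;> norm_num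
    · rw [if_pos h1]
      split_ifs <;> norm_num
  · rw [if_neg hR]
    split_ifs <;> norm_num

theorem pr_union {ι : Type} (s : Finset ι) {P : ι → (V → α) → Prop} {R : (V → α) → Prop}
    (h : ∀ ω, R ω → ∃ i ∈ s, P i ω) : pr R ≤ ∑ i ∈ s, pr (P i) := by
  have e : ∑ i ∈ s, pr (P i) = mean (fun ω => ∑ i ∈ s, if P i ω then (1 : ℝ) else 0) :=
    (mean_sum s fun i ω => if P i ω then (1 : ℝ) else 0).symm
  rw [e]
  refine mean_mono fun ω => ?_
  have h0 : ∀ i ∈ s, (0 : ℝ) ≤ if P i ω then (1 : ℝ) else 0 := fun i _ => by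
    split_ifs <;> norm_num
  by_cases hR : R ω
  · rw [if_pos hR]
    obtain ⟨i, hi, hP⟩ := h ω hR
    have h1 := Finset.single_le_sum h0 hi
    rwa [if_pos hP] at h1
  · rw [if_neg hR]
    exact Finset.sum_nonneg h0

theorem pr_false {P : (V → α) → Prop} (h : ∀ ω, ¬ P ω) : pr P = 0 := by
  have : (fun ω : V → α => if P ω then (1 : ℝ) else 0) = fun _ => 0 := by
    funext ω
    rw [if_neg (h ω)]
  unfold pr
  rw [this, mean_const]

theorem pr_le_one (P : (V → α) → Prop) : pr P ≤ 1 := by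
  have h := mean_mono (f := fun ω : V → α => if P ω then (1 : ℝ) else 0) (g := fun _ => 1)
    (fun ω => by split_ifs <;> norm_num)
  rwa [mean_const] at h

theorem card_eq (P : (V → α) → Prop) :
    ((univ.filter P).card : ℝ) = pr P * Fintype.card (V → α) :=
  card_filter_eq_mean P

/-- independence -/
theorem pr_and {W W' : Finset V} (h : Disjoint W W') {P Q : (V → α) → Prop}
    (hP : Dep W P) (hQ : Dep W' Q) : pr (fun ω => P ω ∧ Q ω) = pr P * pr Q := by
  have e : (fun ω : V → α => if P ω ∧ Q ω then (1 : ℝ) else 0) =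
      fun ω => (if P ω then (1 : ℝ) else 0) * (if Q ω then (1 : ℝ) else 0) := by
    funext ω
    by_cases h1 : P ω <;> by_cases h2 : Q ω <;> simp [h1, h2]
  rw [pr_def (fun ω => P ω ∧ Q ω), pr_def P, pr_def Q, e]
  exact mean_mul_dep h (hP.comp fun p => if p then (1 : ℝ) else 0)
    (hQ.comp fun p => if p then (1 : ℝ) else 0)

/-- the value of one coordinate, given the others -/
theorem pr_coord {X : Type} [Fintype X] {W : Finset V} {v : V} (hv : v ∉ W) {f : (V → α) → X}
    (hf : Dep W f) (S : X → α → Prop) (c : ℝ)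
    (hS : ∀ x, ((univ.filter fun a => S x a).card : ℝ) ≤ c * Fintype.card α) :
    pr (fun ω => S (f ω) (ω v)) ≤ c := by
  have hN : (0 : ℝ) < Fintype.card α := by exact_mod_cast Fintype.card_pos
  have h1 : pr (fun ω => S (f ω) (ω v)) ≤ ∑ x : X, pr (fun ω => f ω = x ∧ S x (ω v)) :=
    pr_union univ fun ω hω => ⟨f ω, mem_univ _, rfl, hω⟩
  have h2 : ∀ x : X, pr (fun ω => f ω = x ∧ S x (ω v)) ≤ pr (fun ω => f ω = x) * c := by
    intro x
    rw [pr_and (W := W) (W' := {v}) (by rwa [Finset.disjoint_singleton_right])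
      (hf.comp fun y => y = x) (fun ω ω' h => by rw [h v (mem_singleton_self v)])]
    apply mul_le_mul_of_nonneg_left _ (pr_nonneg _)
    have h3 : pr (fun ω : V → α => S x (ω v)) =
        (∑ a, if S x a then (1 : ℝ) else 0) / Fintype.card α :=
      mean_coord v fun a => if S x a then (1 : ℝ) else 0
    rw [h3, div_le_iff₀ hN]
    refine le_trans (le_of_eq ?_) (hS x)
    rw [Finset.sum_ite, Finset.sum_const_zero, add_zero, Finset.sum_const, nsmul_eq_mul, mul_one]
  have h3 : ∑ x : X, pr (fun ω : V → α => f ω = x) = 1 := by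
    have e : ∑ x : X, pr (fun ω : V → α => f ω = x) =
        mean (fun ω => ∑ x : X, if f ω = x then (1 : ℝ) else 0) :=
      (mean_sum univ fun x ω => if f ω = x then (1 : ℝ) else 0).symm
    rw [e]
    have e2 : (fun ω : V → α => ∑ x : X, if f ω = x then (1 : ℝ) else 0) = fun _ => 1 := by
      funext ω
      rw [Finset.sum_ite_eq univ (f ω), if_pos (mem_univ _)]
    rw [e2, mean_const]
  calc pr (fun ω => S (f ω) (ω v)) ≤ ∑ x : X, pr (fun ω => f ω = x) * c :=
        h1.trans (Finset.sum_le_sum fun x _ => h2 x)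
    _ = c := by rw [← Finset.sum_mul, h3, one_mul]

end prob

section pairs

variable {Δ E β : Type} [Fintype Δ] [DecidableEq Δ] [Fintype E] [DecidableEq E] [Fintype β]
  [Nonempty β]

/-- an event depending on two coordinates -/
theorem pr_pair {d d' : Δ} (h : d ≠ d') (R : (E → β) → (E → β) → Prop) :
    pr (fun ω : Δ → (E → β) => R (ω d) (ω d')) ≤ mean (fun a => pr (R a)) := by
  have h1 : pr (fun ω : Δ → (E → β) => R (ω d) (ω d')) ≤
      ∑ a : E → β, pr (fun ω : Δ → (E → β) => ω d = a ∧ R a (ω d')) :=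
    pr_union univ fun ω hω => ⟨ω d, mem_univ _, rfl, hω⟩
  refine h1.trans (le_of_eq ?_)
  unfold mean
  rw [Finset.sum_div]
  refine Finset.sum_congr rfl fun a _ => ?_
  rw [pr_and (W := {d}) (W' := {d'}) (by simpa using h)
    (fun ω ω' h => by rw [h d (mem_singleton_self d)])
    (fun ω ω' h => by rw [h d' (mem_singleton_self d')])]
  have h2 : pr (fun ω : Δ → (E → β) => ω d = a) = 1 / Fintype.card (E → β) := by
    have h3 : pr (fun ω : Δ → (E → β) => ω d = a) =
        (∑ b : E → β, if b = a then (1 : ℝ) else 0) / Fintype.card (E → β) :=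
      (pr_def _).trans (mean_coord d fun b => if b = a then (1 : ℝ) else 0)
    rw [h3, Finset.sum_ite_eq' univ a, if_pos (mem_univ _)]
  have h4 : pr (fun ω : Δ → (E → β) => R a (ω d')) = pr (R a) :=
    mean_coord d' fun b => if R a b then (1 : ℝ) else 0
  rw [h2, h4]
  ring

/-- an event depending on one coordinate -/
theorem pr_single (d : Δ) (S : (E → β) → Prop) :
    pr (fun ω : Δ → (E → β) => S (ω d)) = pr S :=
  mean_coord d fun b => if S b then (1 : ℝ) else 0

end pairs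

/-! ## chains -/

section chain

variable {V I Δ : Type} [Fintype V] {t l : ℕ} (C : Chn V I Δ t l)

/-- candidate -/
def yp1 (i : I) (a : Fin l → Fin t) (j : ℕ) (p : V) : V :=
  if h : j < l then C.cand i p (a ⟨j, h⟩) else p

/-- place -/
def ps1 (i : I) (v : V) (a : Fin l → Fin t) (σ : ℕ → Bool) : ℕ → V
  | 0 => v
  | j + 1 => C.P (σ j) i (yp1 C i a j (ps1 i v a σ j))

/-- candidate in step `j` -/
def yy1 (i : I) (v : V) (a : Fin l → Fin t) (σ : ℕ → Bool) (j : ℕ) : V :=
  yp1 C i a j (ps1 C i v a σ j)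

/-- the places are in `X` -/
def al1 (i : I) (v : V) (a : Fin l → Fin t) (σ : ℕ → Bool) (j : ℕ) : Prop :=
  ∀ j', 1 ≤ j' → j' ≤ j → ps1 C i v a σ j' ∈ C.X

theorem ps_eq (ω : Δ → Fin l → Fin t) (d : Δ) (σ : ℕ → Bool) (j : ℕ) :
    C.ps ω d σ j = ps1 C (C.cl d) (C.st d) (ω d) σ j := by
  induction j with
  | zero => rfl
  | succ j ih =>
    show C.P (σ j) (C.cl d) (C.yp ω d j (C.ps ω d σ j)) = _
    rw [ih]
    rfl

theorem yy_eq (ω : Δ → Fin l → Fin t) (d : Δ) (σ : ℕ → Bool) (j : ℕ) :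
    C.yy ω d σ j = yy1 C (C.cl d) (C.st d) (ω d) σ j := by
  show C.yp ω d j (C.ps ω d σ j) = _
  rw [ps_eq]
  rfl

theorem al_iff (ω : Δ → Fin l → Fin t) (d : Δ) (σ : ℕ → Bool) (j : ℕ) :
    C.al ω d σ j ↔ al1 C (C.cl d) (C.st d) (ω d) σ j := by
  unfold Chn.al al1
  simp only [ps_eq]

variable {C}

theorem ps1_congr {i : I} {v : V} {a a' : Fin l → Fin t} {σ σ' : ℕ → Bool} {j : ℕ}
    (h : ∀ k : Fin l, k.1 < j → a k = a' k) (hσ : ∀ k, k < j → σ k = σ' k) :
    ps1 C i v a σ j = ps1 C i v a' σ' j := by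
  induction j with
  | zero => rfl
  | succ j ih =>
    have h1 := ih (fun k hk => h k (by omega)) (fun k hk => hσ k (by omega))
    show C.P (σ j) i (yp1 C i a j (ps1 C i v a σ j)) = C.P (σ' j) i (yp1 C i a' j (ps1 C i v a' σ' j))
    rw [h1, hσ j (by omega)]
    unfold yp1
    by_cases hj : j < l
    · rw [dif_pos hj, dif_pos hj, h ⟨j, hj⟩ (by simp)]
    · rw [dif_neg hj, dif_neg hj]

theorem yy1_congrσ {i : I} {v : V} {a : Fin l → Fin t} {σ σ' : ℕ → Bool} {j : ℕ}
    (hσ : ∀ k, k < j → σ k = σ' k) : yy1 C i v a σ j = yy1 C i v a σ' j := by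
  unfold yy1
  rw [ps1_congr (a := a) (a' := a) (fun _ _ => rfl) hσ]

variable (C)

/-- place `w` after `j` steps -/
def EP (i : I) (v : V) (j : ℕ) (w : V) (a : Fin l → Fin t) : Prop :=
  ∃ σ : ℕ → Bool, (∀ j', 1 ≤ j' → j' < j → ps1 C i v a σ j' ∈ C.X) ∧ ps1 C i v a σ j = w

/-- candidate `y` in step `j` -/
def EY (i : I) (v : V) (j : ℕ) (y : V) (a : Fin l → Fin t) : Prop :=
  ∃ σ : ℕ → Bool, al1 C i v a σ j ∧ yy1 C i v a σ j = y

variable {C}

theorem dep_EP (i : I) (v : V) (j : ℕ) (w : V) :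
    Dep (univ.filter fun k : Fin l => k.1 < j) (EP C i v j w) := by
  intro a a' h
  have h' : ∀ k : Fin l, k.1 < j → a k = a' k := fun k hk =>
    h k (mem_filter.2 ⟨mem_univ _, hk⟩)
  have key : ∀ a a' : Fin l → Fin t, (∀ k : Fin l, k.1 < j → a k = a' k) →
      EP C i v j w a → EP C i v j w a' := by
    rintro a a' h ⟨σ, h1, h2⟩
    refine ⟨σ, fun j' hj1 hj2 => ?_, ?_⟩
    · rw [← ps1_congr (a := a) (a' := a') (fun k hk => h k (by omega)) fun _ _ => rfl]
      exact h1 j' hj1 hj2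
    · rw [← ps1_congr (a := a) (a' := a') h fun _ _ => rfl]
      exact h2
  exact propext ⟨key a a' h', key a' a fun k hk => (h' k hk).symm⟩

theorem dep_ps1 (i : I) (v : V) (σ : ℕ → Bool) {j j' : ℕ} (hj : j' ≤ j) :
    Dep (univ.filter fun k : Fin l => k.1 < j) (fun a => ps1 C i v a σ j') := by
  intro a a' h
  exact ps1_congr (fun k hk => h k (mem_filter.2 ⟨mem_univ _, by omega⟩)) fun _ _ => rfl

theorem dep_yy1 (i : I) (v : V) (σ : ℕ → Bool) {j j' : ℕ} (hj : j' < j) :
    Dep (univ.filter fun k : Fin l => k.1 < j) (fun a => yy1 C i v a σ j') := by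
  intro a a' h
  show yp1 C i a j' (ps1 C i v a σ j') = yp1 C i a' j' (ps1 C i v a' σ j')
  rw [ps1_congr (a := a) (a' := a')
    (fun k hk => h k (mem_filter.2 ⟨mem_univ _, by omega⟩)) fun _ _ => rfl]
  unfold yp1
  by_cases hl : j' < l
  · rw [dif_pos hl, dif_pos hl, h ⟨j', hl⟩ (mem_filter.2 ⟨mem_univ _, hj⟩)]
  · rw [dif_neg hl, dif_neg hl]

variable [Nonempty (Fin t)]

/-- the bounds for the probabilities -/
theorem bounds (hinj : ∀ i p, Function.Injective (C.cand i p)) {aY aP : I → ℕ → V → V → ℝ}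
    (h0 : ∀ i j y v, 0 ≤ aY i j y v ∧ 0 ≤ aP i j y v) (hr0 : ∀ i v, 1 ≤ aP i 0 v v)
    (hrY : ∀ i j y v, (∑ u ∈ univ.filter (fun u => (j = 0 ∨ u ∈ C.X) ∧ ∃ a, C.cand i u a = y),
      aP i j u v) / t ≤ aY i j y v)
    (hrP : ∀ i j w v, (∑ y ∈ univ.filter (fun y => ∃ b, C.P b i y = w), aY i j y v) ≤
      aP i (j + 1) w v) (i : I) (v : V) (j : ℕ) :
    (j ≤ l → ∀ w, pr (EP C i v j w) ≤ aP i j w v) ∧
      (j < l → ∀ y, pr (EY C i v j y) ≤ aY i j y v) := by
  have ht : (0 : ℝ) < t := by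
    obtain ⟨x⟩ := ‹Nonempty (Fin t)›
    have : 0 < t := lt_of_le_of_lt (Nat.zero_le _) x.2
    exact_mod_cast this
  have step : ∀ j, j < l → (∀ w, pr (EP C i v j w) ≤ aP i j w v) →
      ∀ y, pr (EY C i v j y) ≤ aY i j y v := by
    intro j hj hP y
    have h1 : pr (EY C i v j y) ≤
        ∑ u ∈ univ.filter (fun u => (j = 0 ∨ u ∈ C.X) ∧ ∃ a, C.cand i u a = y),
          pr (fun a : Fin l → Fin t => EP C i v j u a ∧ C.cand i u (a ⟨j, hj⟩) = y) := by
      apply pr_union
      rintro a ⟨σ, h1, h2⟩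
      have h3 : C.cand i (ps1 C i v a σ j) (a ⟨j, hj⟩) = y := by
        rw [← h2]
        unfold yy1 yp1
        rw [dif_pos hj]
      refine ⟨ps1 C i v a σ j, mem_filter.2 ⟨mem_univ _, ?_, ⟨_, h3⟩⟩,
        ⟨σ, fun j' hj1 hj2 => h1 j' hj1 hj2.le, rfl⟩, h3⟩
      rcases Nat.eq_zero_or_pos j with h4 | h4
      · exact Or.inl h4
      · exact Or.inr (h1 j h4 le_rfl)
    refine h1.trans (le_trans ?_ (hrY i j y v))
    rw [Finset.sum_div]
    refine Finset.sum_le_sum fun u _ => ?_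
    rw [pr_and (W := univ.filter fun k : Fin l => k.1 < j) (W' := {⟨j, hj⟩})
      (by rw [Finset.disjoint_singleton_right, mem_filter]; simp) (dep_EP i v j u)
      (fun a a' h => by rw [h _ (mem_singleton_self _)])]
    have h2 : pr (fun a : Fin l → Fin t => C.cand i u (a ⟨j, hj⟩) = y) ≤ 1 / t := by
      have h3 : pr (fun a : Fin l → Fin t => C.cand i u (a ⟨j, hj⟩) = y) =
          (∑ c : Fin t, if C.cand i u c = y then (1 : ℝ) else 0) / Fintype.card (Fin t) :=
        mean_coord (⟨j, hj⟩ : Fin l) fun c => if C.cand i u c = y then (1 : ℝ) else 0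
      rw [h3, Fintype.card_fin]
      apply div_le_div_of_nonneg_right _ ht.le
      rw [Finset.sum_ite, Finset.sum_const_zero, add_zero, Finset.sum_const, nsmul_eq_mul, mul_one]
      have h4 : (univ.filter fun c => C.cand i u c = y).card ≤ 1 := by
        rw [Finset.card_le_one]
        intro x hx x' hx'
        exact hinj i u ((mem_filter.1 hx).2.trans (mem_filter.1 hx').2.symm)
      exact_mod_cast h4
    calc pr (EP C i v j u) * pr (fun a : Fin l → Fin t => C.cand i u (a ⟨j, hj⟩) = y)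
        ≤ aP i j u v * (1 / t) := mul_le_mul (hP u) h2 (pr_nonneg _) (h0 i j u v).2
      _ = aP i j u v / t := by ring
  induction j with
  | zero =>
    have hP : ∀ w, pr (EP C i v 0 w) ≤ aP i 0 w v := by
      intro w
      by_cases hw : w = v
      · rw [hw]
        exact (pr_le_one _).trans (hr0 i v)
      · rw [pr_false]
        · exact (h0 i 0 w v).2
        · rintro a ⟨σ, -, h⟩
          exact hw h.symm
    exact ⟨fun _ => hP, fun hl => step 0 hl hP⟩
  | succ j ih =>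
    have hP : j + 1 ≤ l → ∀ w, pr (EP C i v (j + 1) w) ≤ aP i (j + 1) w v := by
      intro hl w
      have hY := ih.2 (by omega)
      have h1 : pr (EP C i v (j + 1) w) ≤
          ∑ y ∈ univ.filter (fun y => ∃ b, C.P b i y = w), pr (EY C i v j y) := by
        apply pr_union
        rintro a ⟨σ, h1, h2⟩
        refine ⟨yy1 C i v a σ j, mem_filter.2 ⟨mem_univ _, σ j, h2⟩, σ, ?_, rfl⟩
        intro j' hj1 hj2
        exact h1 j' hj1 (by omega)
      exact h1.trans ((Finset.sum_le_sum fun y _ => hY y).trans (hrP i j w v))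
    exact ⟨hP, fun hl => step (j + 1) hl (hP hl.le)⟩

variable (C)

/-- all places after `j` steps -/
def PS (i : I) (v : V) (a : Fin l → Fin t) (j : ℕ) : Finset V :=
  univ.filter fun w => ∃ σ : ℕ → Bool, ps1 C i v a σ j = w

/-- all candidates in step `j` -/
def YS (i : I) (v : V) (a : Fin l → Fin t) (j : ℕ) : Finset V :=
  univ.filter fun w => ∃ σ : ℕ → Bool, yy1 C i v a σ j = w

theorem card_YS (i : I) (v : V) (a : Fin l → Fin t) (j : ℕ) :
    (YS C i v a j).card ≤ (PS C i v a j).card := by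
  have h : YS C i v a j ⊆ (PS C i v a j).image (yp1 C i a j) := by
    intro w hw
    obtain ⟨σ, hσ⟩ := (mem_filter.1 hw).2
    exact mem_image.2 ⟨ps1 C i v a σ j, mem_filter.2 ⟨mem_univ _, σ, rfl⟩, hσ⟩
  exact (card_le_card h).trans card_image_le

theorem card_PS (i : I) (v : V) (a : Fin l → Fin t) (j : ℕ) : (PS C i v a j).card ≤ 2 ^ j := by
  induction j with
  | zero =>
    rw [pow_zero, Finset.card_le_one]
    intro x hx y hy
    obtain ⟨σ, hσ⟩ := (mem_filter.1 hx).2
    obtain ⟨σ', hσ'⟩ := (mem_filter.1 hy).2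
    rw [← hσ, ← hσ']
    rfl
  | succ j ih =>
    have h : PS C i v a (j + 1) ⊆
        (YS C i v a j).image (C.P true i) ∪ (YS C i v a j).image (C.P false i) := by
      intro w hw
      obtain ⟨σ, hσ⟩ := (mem_filter.1 hw).2
      have h1 : yy1 C i v a σ j ∈ YS C i v a j := mem_filter.2 ⟨mem_univ _, σ, rfl⟩
      have h2 : C.P (σ j) i (yy1 C i v a σ j) = w := hσ
      rw [mem_union]
      cases hb : σ j
      · rw [hb] at h2
        exact Or.inr (mem_image.2 ⟨_, h1, h2⟩)
      · rw [hb] at h2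
        exact Or.inl (mem_image.2 ⟨_, h1, h2⟩)
    have h1 := (card_le_card h).trans (card_union_le _ _)
    have h2 : ((YS C i v a j).image (C.P true i)).card ≤ (YS C i v a j).card := card_image_le
    have h3 : ((YS C i v a j).image (C.P false i)).card ≤ (YS C i v a j).card := card_image_le
    have h4 := card_YS C i v a j
    rw [pow_succ]
    omega

/-- the used vertices -/
def Tr (i : I) (v : V) (a : Fin l → Fin t) : Finset V :=
  univ.filter fun w => ∃ (σ : ℕ → Bool) (j : ℕ), j < l ∧ al1 C i v a σ j ∧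
    (yy1 C i v a σ j = w ∨ ps1 C i v a σ (j + 1) = w)

/-- the ends of full length -/
def En (i : I) (v : V) (a : Fin l → Fin t) : Finset V :=
  univ.filter fun w => ∃ σ : ℕ → Bool, al1 C i v a σ l ∧ ps1 C i v a σ l = w

theorem card_Tr (i : I) (v : V) (a : Fin l → Fin t) : (Tr C i v a).card ≤ 2 ^ (l + 2) := by
  have h : Tr C i v a ⊆ (range l).biUnion fun j => YS C i v a j ∪ PS C i v a (j + 1) := by
    intro w hw
    obtain ⟨σ, j, hj, -, h1⟩ := (mem_filter.1 hw).2
    rw [mem_biUnion]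
    refine ⟨j, mem_range.2 hj, ?_⟩
    rw [mem_union]
    rcases h1 with h1 | h1
    · exact Or.inl (mem_filter.2 ⟨mem_univ _, σ, h1⟩)
    · exact Or.inr (mem_filter.2 ⟨mem_univ _, σ, h1⟩)
  have h1 := (card_le_card h).trans card_biUnion_le
  have h2 : ∀ n : ℕ, ∑ j ∈ range n, (YS C i v a j ∪ PS C i v a (j + 1)).card ≤ 3 * 2 ^ n := by
    intro n
    induction n with
    | zero => simp
    | succ n ih =>
      rw [sum_range_succ]
      have h3 := card_union_le (YS C i v a n) (PS C i v a (n + 1))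
      have h4 := card_YS C i v a n
      have h5 := card_PS C i v a n
      have h6 := card_PS C i v a (n + 1)
      rw [pow_succ] at h6 ⊢
      omega
  have h3 := h2 l
  rw [pow_add]
  omega

theorem card_En (i : I) (v : V) (a : Fin l → Fin t) : (En C i v a).card ≤ 2 ^ l := by
  have h : En C i v a ⊆ PS C i v a l := by
    intro w hw
    obtain ⟨σ, -, h1⟩ := (mem_filter.1 hw).2
    exact mem_filter.2 ⟨mem_univ _, σ, h1⟩
  exact (card_le_card h).trans (card_PS C i v a l)

variable {C}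

section est

variable {aY aP : I → ℕ → V → V → ℝ}

theorem pr_Tr (hb : ∀ i v j, (j ≤ l → ∀ w, pr (EP C i v j w) ≤ aP i j w v) ∧
      (j < l → ∀ y, pr (EY C i v j y) ≤ aY i j y v)) (i : I) (v w : V) :
    pr (fun a : Fin l → Fin t => w ∈ Tr C i v a) ≤
      ∑ j ∈ range l, (aY i j w v + aP i (j + 1) w v) := by
  have h1 : pr (fun a : Fin l → Fin t => w ∈ Tr C i v a) ≤
      ∑ j ∈ range l, pr (fun a : Fin l → Fin t => EY C i v j w a ∨ EP C i v (j + 1) w a) := by
    apply pr_union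
    intro a ha
    obtain ⟨σ, j, hj, h1, h2⟩ := (mem_filter.1 ha).2
    refine ⟨j, mem_range.2 hj, ?_⟩
    rcases h2 with h2 | h2
    · exact Or.inl ⟨σ, h1, h2⟩
    · exact Or.inr ⟨σ, fun j' hj1 hj2 => h1 j' hj1 (by omega), h2⟩
  refine h1.trans (Finset.sum_le_sum fun j hj => ?_)
  rw [mem_range] at hj
  exact (pr_or fun a h => h).trans
    (add_le_add ((hb i v j).2 hj w) ((hb i v (j + 1)).1 (by omega) w))

theorem pr_En (hb : ∀ i v j, (j ≤ l → ∀ w, pr (EP C i v j w) ≤ aP i j w v) ∧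
      (j < l → ∀ y, pr (EY C i v j y) ≤ aY i j y v)) (i : I) (v w : V) :
    pr (fun a : Fin l → Fin t => w ∈ En C i v a) ≤ aP i l w v := by
  refine le_trans (pr_mono fun a ha => ?_) ((hb i v l).1 le_rfl w)
  obtain ⟨σ, h1, h2⟩ := (mem_filter.1 ha).2
  exact ⟨σ, fun j' hj1 hj2 => h1 j' hj1 hj2.le, h2⟩

end est

theorem near_symm {N : SimpleGraph V} {r : ℕ} {a b : V} (h : near N r a b) : near N r b a := by
  obtain ⟨p, hp⟩ := h
  exact ⟨p.reverse, by rwa [SimpleGraph.Walk.length_reverse]⟩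

theorem near_trans {N : SimpleGraph V} {r s : ℕ} {a b c : V} (h : near N r a b)
    (h' : near N s b c) : near N (r + s) a c := by
  obtain ⟨p, hp⟩ := h
  obtain ⟨p', hp'⟩ := h'
  exact ⟨p.append p', by rw [SimpleGraph.Walk.length_append]; omega⟩

theorem near_mono {N : SimpleGraph V} {r s : ℕ} (hrs : r ≤ s) {a b : V} (h : near N r a b) :
    near N s a b := by
  obtain ⟨p, hp⟩ := h
  exact ⟨p, hp.trans hrs⟩

theorem near_adj {N : SimpleGraph V} {a b : V} (h : N.Adj a b) : near N 1 a b :=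
  ⟨h.toWalk, by simp⟩

theorem near_ps {N : SimpleGraph V} (hc : ∀ i p a, N.Adj p (C.cand i p a))
    (hP : ∀ b i p a, N.Adj (C.cand i p a) (C.P b i (C.cand i p a))) (i : I) (v : V)
    (a : Fin l → Fin t) (σ : ℕ → Bool) (j : ℕ) (hj : j ≤ l) :
    near N (2 * j) v (ps1 C i v a σ j) := by
  induction j with
  | zero =>
    show near N (2 * 0) v v
    exact ⟨SimpleGraph.Walk.nil, by simp⟩
  | succ j ih =>
    have h1 := ih (by omega)
    have h2 : yp1 C i a j (ps1 C i v a σ j) =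
        C.cand i (ps1 C i v a σ j) (a ⟨j, by omega⟩) := by
      unfold yp1
      rw [dif_pos (by omega)]
    have h3 : near N 1 (ps1 C i v a σ j) (yp1 C i a j (ps1 C i v a σ j)) := by
      rw [h2]
      exact near_adj (hc _ _ _)
    have h4 : near N 1 (yp1 C i a j (ps1 C i v a σ j)) (ps1 C i v a σ (j + 1)) := by
      show near N 1 (yp1 C i a j (ps1 C i v a σ j))
        (C.P (σ j) i (yp1 C i a j (ps1 C i v a σ j)))
      rw [h2]
      exact near_adj (hP _ _ _ _)
    exact near_mono (by omega) (near_trans (near_trans h1 h3) h4)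

variable (C)

/-- the pair event -/
def RR (N : SimpleGraph V) (ρ : ℕ) (d d' : Δ) (a b : Fin l → Fin t) : Prop :=
  (∃ w ∈ Tr C (C.cl d) (C.st d) a, w ∈ Tr C (C.cl d') (C.st d') b) ∨
    ∃ w ∈ En C (C.cl d) (C.st d) a, ∃ w' ∈ En C (C.cl d') (C.st d') b, near N ρ w w'

/-- the chain meets its own past -/
def SS (i : I) (v : V) (a : Fin l → Fin t) : Prop :=
  ∃ (σ : ℕ → Bool) (j j' : ℕ), j < l ∧ j' ≤ j ∧
    (yy1 C i v a σ j = ps1 C i v a σ j' ∨ (j' < j ∧ yy1 C i v a σ j = yy1 C i v a σ j'))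

/-- the chain ends near `D2` -/
def S2 (N : SimpleGraph V) (ρ : ℕ) (D2 : Set V) (i : I) (v : V) (a : Fin l → Fin t) : Prop :=
  ∃ w ∈ En C i v a, ∃ x ∈ D2, near N ρ w x

variable {C}

theorem RR_symm {N : SimpleGraph V} {ρ : ℕ} {d d' : Δ} {a b : Fin l → Fin t}
    (h : RR C N ρ d d' a b) : RR C N ρ d' d b a := by
  rcases h with ⟨w, h1, h2⟩ | ⟨w, h1, w', h2, h3⟩
  · exact Or.inl ⟨w, h2, h1⟩
  · exact Or.inr ⟨w', h2, w, h1, near_symm h3⟩

/-- extension of a finite sequence of sides -/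
def ext (τ : Fin l → Bool) (k : ℕ) : Bool := if h : k < l then τ ⟨k, h⟩ else false

theorem ext_restr (σ : ℕ → Bool) (k : ℕ) (hk : k < l) :
    ext (fun i : Fin l => σ i) k = σ k := by
  unfold ext
  rw [dif_pos hk]

theorem pr_SS (hinj : ∀ i p, Function.Injective (C.cand i p)) (i : I) (v : V)
    (ht : l ^ 2 * 2 ^ (l + 10) ≤ t) : pr (SS C i v) ≤ 1 / 512 := by
  have ht0 : (0 : ℝ) < t := by
    obtain ⟨x⟩ := ‹Nonempty (Fin t)›
    have : 0 < t := lt_of_le_of_lt (Nat.zero_le _) x.2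
    exact_mod_cast this
  have h1 : ∀ (σ : ℕ → Bool) (j : ℕ) (hj : j < l) (g : (Fin l → Fin t) → V),
      Dep (univ.filter fun k : Fin l => k.1 < j) g →
      pr (fun a : Fin l → Fin t => yy1 C i v a σ j = g a) ≤ 1 / t := by
    intro σ j hj g hg
    have hdep : Dep (univ.filter fun k : Fin l => k.1 < j)
        (fun a : Fin l → Fin t => (ps1 C i v a σ j, g a)) := by
      intro a a' h
      exact Prod.ext (dep_ps1 i v σ le_rfl a a' h) (hg a a' h)
    have h2 := pr_coord (v := (⟨j, hj⟩ : Fin l)) (by rw [mem_filter]; simp) hdep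
      (fun x c => C.cand i x.1 c = x.2) (1 / t) (by
        intro x
        rw [Fintype.card_fin, one_div, inv_mul_cancel₀ ht0.ne']
        have h4 : (univ.filter fun c => C.cand i x.1 c = x.2).card ≤ 1 := by
          rw [Finset.card_le_one]
          intro c hc c' hc'
          exact hinj i x.1 ((mem_filter.1 hc).2.trans (mem_filter.1 hc').2.symm)
        exact_mod_cast h4)
    refine le_trans (pr_mono fun a ha => ?_) h2
    show C.cand i (ps1 C i v a σ j) (a ⟨j, hj⟩) = g a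
    rw [← ha]
    unfold yy1 yp1
    rw [dif_pos hj]
  have h2 : pr (SS C i v) ≤ ∑ x ∈ (univ : Finset (Fin l → Bool)) ×ˢ (range l ×ˢ range l),
      pr (fun a : Fin l → Fin t => x.2.1 < l ∧ x.2.2 ≤ x.2.1 ∧
        (yy1 C i v a (ext x.1) x.2.1 = ps1 C i v a (ext x.1) x.2.2 ∨
          (x.2.2 < x.2.1 ∧ yy1 C i v a (ext x.1) x.2.1 = yy1 C i v a (ext x.1) x.2.2))) := by
    apply pr_union
    rintro a ⟨σ, j, j', hj, hj', h3⟩
    have e1 : ∀ k, k < l → ext (fun i : Fin l => σ i) k = σ k := ext_restr σ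
    refine ⟨(fun i : Fin l => σ i, j, j'), ?_, hj, hj', ?_⟩
    · rw [mem_product, mem_product, mem_range, mem_range]
      exact ⟨mem_univ _, hj, lt_of_le_of_lt hj' hj⟩
    · have e2 : yy1 C i v a (ext fun i : Fin l => σ i) j = yy1 C i v a σ j :=
        yy1_congrσ fun k hk => e1 k (by omega)
      have e3 : ps1 C i v a (ext fun i : Fin l => σ i) j' = ps1 C i v a σ j' :=
        ps1_congr (fun _ _ => rfl) fun k hk => e1 k (by omega)
      have e4 : yy1 C i v a (ext fun i : Fin l => σ i) j' = yy1 C i v a σ j' :=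
        yy1_congrσ fun k hk => e1 k (by omega)
      show yy1 C i v a (ext fun i : Fin l => σ i) j = ps1 C i v a (ext fun i : Fin l => σ i) j' ∨
        (j' < j ∧ yy1 C i v a (ext fun i : Fin l => σ i) j =
          yy1 C i v a (ext fun i : Fin l => σ i) j')
      rw [e2, e3, e4]
      exact h3
  have h3 : ∀ x ∈ (univ : Finset (Fin l → Bool)) ×ˢ (range l ×ˢ range l),
      pr (fun a : Fin l → Fin t => x.2.1 < l ∧ x.2.2 ≤ x.2.1 ∧
        (yy1 C i v a (ext x.1) x.2.1 = ps1 C i v a (ext x.1) x.2.2 ∨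
          (x.2.2 < x.2.1 ∧ yy1 C i v a (ext x.1) x.2.1 = yy1 C i v a (ext x.1) x.2.2))) ≤
        2 / t := by
    rintro ⟨τ, j, j'⟩ -
    show pr (fun a : Fin l → Fin t => j < l ∧ j' ≤ j ∧
        (yy1 C i v a (ext τ) j = ps1 C i v a (ext τ) j' ∨
          (j' < j ∧ yy1 C i v a (ext τ) j = yy1 C i v a (ext τ) j'))) ≤ 2 / t
    by_cases hj : j < l
    · by_cases hj' : j' ≤ j
      · have h4 : pr (fun a : Fin l → Fin t => j < l ∧ j' ≤ j ∧
            (yy1 C i v a (ext τ) j = ps1 C i v a (ext τ) j' ∨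
            (j' < j ∧ yy1 C i v a (ext τ) j = yy1 C i v a (ext τ) j'))) ≤
            pr (fun a : Fin l → Fin t => yy1 C i v a (ext τ) j = ps1 C i v a (ext τ) j') +
            pr (fun a : Fin l → Fin t => j' < j ∧
              yy1 C i v a (ext τ) j = yy1 C i v a (ext τ) j') :=
          pr_or fun a h => h.2.2
        have h5 := h1 (ext τ) j hj _ (dep_ps1 (C := C) i v (ext τ) hj')
        have h6 : pr (fun a : Fin l → Fin t => j' < j ∧
              yy1 C i v a (ext τ) j = yy1 C i v a (ext τ) j') ≤ 1 / t := by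
          by_cases hlt : j' < j
          · exact le_trans (pr_mono fun a h => h.2) (h1 (ext τ) j hj _ (dep_yy1 (C := C) i v (ext τ) hlt))
          · rw [pr_false fun a h => hlt h.1]
            positivity
        have e : (2 : ℝ) / t = 1 / t + 1 / t := by ring
        rw [e]
        exact h4.trans (add_le_add h5 h6)
      · rw [pr_false fun a h => hj' h.2.1]
        positivity
    · rw [pr_false fun a h => hj h.1]
      positivity
  refine h2.trans ((Finset.sum_le_card_nsmul _ _ _ h3).trans ?_)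
  rw [card_product, card_product, card_range, Finset.card_univ, Fintype.card_fun,
    Fintype.card_bool, Fintype.card_fin, nsmul_eq_mul, mul_div_assoc', div_le_div_iff₀ ht0
    (by norm_num)]
  have h4 : ((l ^ 2 * 2 ^ (l + 10) : ℕ) : ℝ) ≤ t := by exact_mod_cast ht
  push_cast at h4 ⊢
  rw [pow_add] at h4
  nlinarith

theorem pr_S2 {N : SimpleGraph V} {ρ D : ℕ} {D2 : Set V} {aY aP : I → ℕ → V → V → ℝ}
    (hD : ∀ v, dg N v ≤ D)
    (hc : ∀ i p a, N.Adj p (C.cand i p a))
    (hP : ∀ b i p a, N.Adj (C.cand i p a) (C.P b i (C.cand i p a)))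
    (hsep : ∀ x ∈ D2, ∀ y ∈ D2, x ≠ y → ¬ near N (4 * l + 2 * ρ) x y)
    (hb : ∀ i v j, (j ≤ l → ∀ w, pr (EP C i v j w) ≤ aP i j w v) ∧
      (j < l → ∀ y, pr (EY C i v j y) ≤ aY i j y v)) (i : I) (v : V) {κ2 : ℝ} (hκ : 0 ≤ κ2)
    (h2 : ∀ w, aP i l w v ≤ κ2) :
    pr (S2 C N ρ D2 i v) ≤ (D + 1) ^ ρ * κ2 := by
  by_cases hex : ∃ x ∈ D2, near N (2 * l + ρ) v x
  · obtain ⟨x0, hx0, hn0⟩ := hex
    have h3 : pr (S2 C N ρ D2 i v) ≤ ∑ w ∈ univ.filter (fun w => near N ρ x0 w),
        pr (fun a : Fin l → Fin t => w ∈ En C i v a) := by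
      apply pr_union
      rintro a ⟨w, hw, x, hx, hwx⟩
      refine ⟨w, mem_filter.2 ⟨mem_univ _, ?_⟩, hw⟩
      obtain ⟨σ, h1, h2⟩ := (mem_filter.1 hw).2
      have h4 : near N (2 * l) v w := by
        rw [← h2]
        exact near_ps hc hP i v a σ l le_rfl
      have h5 : near N (2 * l + ρ) v x := near_trans h4 hwx
      have h6 : x = x0 := by
        by_contra hne
        exact hsep x hx x0 hx0 hne (near_mono (by omega) (near_trans (near_symm h5) hn0))
      rw [← h6]
      exact near_symm hwx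
    refine h3.trans ((Finset.sum_le_card_nsmul _ _ κ2 fun w _ =>
      (pr_En hb i v w).trans (h2 w)).trans ?_)
    rw [nsmul_eq_mul]
    apply mul_le_mul_of_nonneg_right _ hκ
    exact_mod_cast Pool.Agent.C4N.H29.ball N D hD ρ x0
  · rw [pr_false]
    · positivity
    · rintro a ⟨w, hw, x, hx, hwx⟩
      obtain ⟨σ, h1, h2⟩ := (mem_filter.1 hw).2
      apply hex
      refine ⟨x, hx, near_trans ?_ hwx⟩
      rw [← h2]
      exact near_ps hc hP i v a σ l le_rfl

end chain

theorem chn : CHNStmt := by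
  intro V I Δ _ _ _ t l ρ D C N D2 aY aP κ κ2 hl hD hinj _ hc hP hsep h0 hr0 hrY hrP hκ hκ2
    hκb hκ2b ht
  have ht0 : 0 < t := by
    refine lt_of_lt_of_le ?_ ht
    positivity
  have : Nonempty (Fin t) := ⟨⟨0, ht0⟩⟩
  have hb := fun i v j => bounds hinj h0 hr0 hrY hrP i v j
  -- the sum over the second chain
  have hpair : ∀ (d : Δ) (a : Fin l → Fin t),
      ∑ d' : Δ, pr (RR C N ρ d d' a) ≤ 1 / 128 := by
    intro d a
    have hκ0 : 0 ≤ κ := by
      refine le_trans ?_ (hκ (C.st d))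
      exact Finset.sum_nonneg fun d _ => Finset.sum_nonneg fun j _ =>
        add_nonneg (h0 _ _ _ _).1 (h0 _ _ _ _).2
    have hκ20 : 0 ≤ κ2 := by
      refine le_trans ?_ (hκ2 (C.st d))
      exact Finset.sum_nonneg fun d _ => (h0 _ _ _ _).2
    have h1 : ∀ d' : Δ, pr (RR C N ρ d d' a) ≤
        ∑ w ∈ Tr C (C.cl d) (C.st d) a, (∑ j ∈ range l, (aY (C.cl d') j w (C.st d') +
          aP (C.cl d') (j + 1) w (C.st d'))) +
        ∑ w ∈ En C (C.cl d) (C.st d) a, ∑ w' ∈ univ.filter (fun w' => near N ρ w w'),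
          aP (C.cl d') l w' (C.st d') := by
      intro d'
      have h2 : pr (RR C N ρ d d' a) ≤
          pr (fun b => ∃ w ∈ Tr C (C.cl d) (C.st d) a, w ∈ Tr C (C.cl d') (C.st d') b) +
          pr (fun b => ∃ w ∈ En C (C.cl d) (C.st d) a, ∃ w' ∈ En C (C.cl d') (C.st d') b,
            near N ρ w w') := pr_or fun b h => h
      refine h2.trans (add_le_add ?_ ?_)
      · exact (pr_union _ fun b h => h).trans
          (Finset.sum_le_sum fun w _ => pr_Tr hb (C.cl d') (C.st d') w)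
      · refine (pr_union (En C (C.cl d) (C.st d) a)
          (P := fun w b => ∃ w' ∈ En C (C.cl d') (C.st d') b, near N ρ w w')
          fun b h => h).trans (Finset.sum_le_sum fun w _ => ?_)
        refine (pr_union (univ.filter (fun w' => near N ρ w w'))
          (P := fun w' b => w' ∈ En C (C.cl d') (C.st d') b) ?_).trans
          (Finset.sum_le_sum fun w' _ => pr_En hb (C.cl d') (C.st d') w')
        rintro b ⟨w', h3, h4⟩
        exact ⟨w', mem_filter.2 ⟨mem_univ _, h4⟩, h3⟩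
    refine (Finset.sum_le_sum fun d' _ => h1 d').trans ?_
    rw [Finset.sum_add_distrib, Finset.sum_comm (s := univ) (t := Tr C (C.cl d) (C.st d) a),
      Finset.sum_comm (s := univ) (t := En C (C.cl d) (C.st d) a)]
    have h2 : ∑ w ∈ Tr C (C.cl d) (C.st d) a, ∑ d' : Δ, (∑ j ∈ range l,
        (aY (C.cl d') j w (C.st d') + aP (C.cl d') (j + 1) w (C.st d'))) ≤ 2 ^ (l + 2) * κ := by
      refine (Finset.sum_le_card_nsmul _ _ κ fun w _ => hκ w).trans ?_
      rw [nsmul_eq_mul]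
      apply mul_le_mul_of_nonneg_right _ hκ0
      exact_mod_cast card_Tr C (C.cl d) (C.st d) a
    have h3 : ∑ w ∈ En C (C.cl d) (C.st d) a, ∑ d' : Δ,
        ∑ w' ∈ univ.filter (fun w' => near N ρ w w'), aP (C.cl d') l w' (C.st d') ≤
        2 ^ l * ((D + 1) ^ ρ * κ2) := by
      have h4 : ∀ w ∈ En C (C.cl d) (C.st d) a, ∑ d' : Δ,
          ∑ w' ∈ univ.filter (fun w' => near N ρ w w'), aP (C.cl d') l w' (C.st d') ≤
          (D + 1) ^ ρ * κ2 := by
        intro w _
        rw [Finset.sum_comm]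
        refine (Finset.sum_le_card_nsmul _ _ κ2 fun w' _ => hκ2 w').trans ?_
        rw [nsmul_eq_mul]
        apply mul_le_mul_of_nonneg_right _ hκ20
        exact_mod_cast Pool.Agent.C4N.H29.ball N D hD ρ w
      refine (Finset.sum_le_card_nsmul _ _ _ h4).trans ?_
      rw [nsmul_eq_mul]
      apply mul_le_mul_of_nonneg_right _ (by positivity)
      exact_mod_cast card_En C (C.cl d) (C.st d) a
    refine (add_le_add h2 h3).trans ?_
    have e1 : (2 : ℝ) ^ (l + 10) = 2 ^ (l + 2) * 256 := by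
      rw [pow_add, pow_add]; norm_num; ring
    have e2 : (2 : ℝ) ^ (l + 10) = 2 ^ l * 1024 := by
      rw [pow_add]; norm_num
    rw [e1] at hκb
    rw [e2] at hκ2b
    nlinarith
  have hsingle : ∀ d : Δ, pr (fun a : Fin l → Fin t => SS C (C.cl d) (C.st d) a ∨
      S2 C N ρ D2 (C.cl d) (C.st d) a) ≤ 1 / 256 := by
    intro d
    have hκ20 : 0 ≤ κ2 := by
      refine le_trans ?_ (hκ2 (C.st d))
      exact Finset.sum_nonneg fun d _ => (h0 _ _ _ _).2
    have h1 := pr_SS (C := C) hinj (C.cl d) (C.st d) ht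
    have h2 := pr_S2 (C := C) hD hc hP hsep hb (C.cl d) (C.st d) hκ20 (fun w => by
      refine le_trans ?_ (hκ2 w)
      exact Finset.single_le_sum (f := fun d => aP (C.cl d) l w (C.st d))
        (fun d _ => (h0 _ _ _ _).2) (mem_univ d))
    refine (pr_or fun a h => h).trans ((add_le_add h1 h2).trans ?_)
    have e2 : (2 : ℝ) ^ (l + 10) = 2 ^ l * 1024 := by
      rw [pow_add]; norm_num
    rw [e2] at hκ2b
    have h3 : (1 : ℝ) ≤ 2 ^ l := one_le_pow₀ (by norm_num)
    have h4 : 0 ≤ κ2 * ((D : ℝ) + 1) ^ ρ := by positivity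
    nlinarith
  -- the events
  obtain ⟨A, hA⟩ : ∃ A : (Δ × Δ) ⊕ Δ → (Δ → Fin l → Fin t) → Prop, A = fun x ω =>
      match x with
      | Sum.inl p => p.1 ≠ p.2 ∧ RR C N ρ p.1 p.2 (ω p.1) (ω p.2)
      | Sum.inr d => SS C (C.cl d) (C.st d) (ω d) ∨ S2 C N ρ D2 (C.cl d) (C.st d) (ω d) :=
    ⟨_, rfl⟩
  obtain ⟨W, hW⟩ : ∃ W : (Δ × Δ) ⊕ Δ → Finset Δ, W = fun x =>
      match x with
      | Sum.inl p => {p.1, p.2}
      | Sum.inr d => {d} := ⟨_, rfl⟩
  have hAl : ∀ p : Δ × Δ, A (Sum.inl p) =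
      fun ω => p.1 ≠ p.2 ∧ RR C N ρ p.1 p.2 (ω p.1) (ω p.2) := by
    intro p
    rw [hA]
  have hAr : ∀ d : Δ, A (Sum.inr d) =
      fun ω => SS C (C.cl d) (C.st d) (ω d) ∨ S2 C N ρ D2 (C.cl d) (C.st d) (ω d) := by
    intro d
    rw [hA]
  have hWl : ∀ p : Δ × Δ, W (Sum.inl p) = {p.1, p.2} := by
    intro p
    rw [hW]
  have hWr : ∀ d : Δ, W (Sum.inr d) = {d} := by
    intro d
    rw [hW]
  have hprR : ∀ d : Δ, pr (A (Sum.inr d)) ≤ 1 / 256 := by
    intro d
    rw [hAr]
    refine le_trans (le_of_eq ?_) (hsingle d)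
    exact pr_single d fun a => SS C (C.cl d) (C.st d) a ∨ S2 C N ρ D2 (C.cl d) (C.st d) a
  have hprL : ∀ d : Δ, ∑ d' : Δ, pr (A (Sum.inl (d, d'))) ≤ 1 / 128 := by
    intro d
    have h1 : ∀ d' : Δ, pr (A (Sum.inl (d, d'))) ≤ mean (fun a => pr (RR C N ρ d d' a)) := by
      intro d'
      rw [hAl]
      by_cases hdd : d = d'
      · rw [pr_false fun ω h => h.1 hdd]
        exact mean_nonneg fun a => pr_nonneg _
      · exact (pr_mono fun ω h => h.2).trans (pr_pair hdd (RR C N ρ d d'))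
    refine (Finset.sum_le_sum fun d' _ => h1 d').trans ?_
    have h2 : ∑ d' : Δ, mean (fun a => pr (RR C N ρ d d' a)) =
        mean (fun a => ∑ d' : Δ, pr (RR C N ρ d d' a)) :=
      (mean_sum univ fun d' a => pr (RR C N ρ d d' a)).symm
    rw [h2]
    refine (mean_mono (g := fun _ => (1 / 128 : ℝ)) fun a => hpair d a).trans (le_of_eq ?_)
    exact mean_const _
  have hsym : ∀ d d' : Δ, pr (A (Sum.inl (d, d'))) = pr (A (Sum.inl (d', d))) := by
    have h1 : ∀ d d' : Δ, pr (A (Sum.inl (d, d'))) ≤ pr (A (Sum.inl (d', d))) := by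
      intro d d'
      rw [hAl, hAl]
      exact pr_mono fun ω h => ⟨fun e => h.1 e.symm, RR_symm h.2⟩
    intro d d'
    exact le_antisymm (h1 d d') (h1 d' d)
  have hprL1 : ∀ p : Δ × Δ, pr (A (Sum.inl p)) ≤ 1 / 128 := by
    rintro ⟨d, d'⟩
    refine le_trans ?_ (hprL d)
    exact Finset.single_le_sum (f := fun d' => pr (A (Sum.inl (d, d'))))
      (fun d' _ => pr_nonneg _) (mem_univ d')
  obtain ⟨ω, hω⟩ := lll_sum (V := Δ) (α := Fin l → Fin t) (ι := (Δ × Δ) ⊕ Δ)
    (fun x => univ.filter (A x)) W (by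
      intro x ω ω' h hx
      rw [mem_filter] at hx ⊢
      refine ⟨mem_univ _, ?_⟩
      rcases x with p | d
      · rw [hWl] at h
        rw [hAl] at hx ⊢
        show p.1 ≠ p.2 ∧ RR C N ρ p.1 p.2 (ω' p.1) (ω' p.2)
        rw [← h p.1 (by simp), ← h p.2 (by simp)]
        exact hx.2
      · rw [hWr] at h
        rw [hAr] at hx ⊢
        show SS C (C.cl d) (C.st d) (ω' d) ∨ S2 C N ρ D2 (C.cl d) (C.st d) (ω' d)
        rw [← h d (by simp)]
        exact hx.2)
    (fun x => 2 * pr (A x)) (1 / 8) (fun x => mul_nonneg (by norm_num) (pr_nonneg _))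
    (by
      rintro (p | d)
      · have := hprL1 p
        show 2 * pr (A (Sum.inl p)) ≤ 1 / 2
        linarith
      · have := hprR d
        show 2 * pr (A (Sum.inr d)) ≤ 1 / 2
        linarith)
    (by
      intro v
      rw [Finset.sum_filter, Fintype.sum_sum_type]
      have h1 : ∑ p : Δ × Δ, (if v ∈ W (Sum.inl p) then 2 * pr (A (Sum.inl p)) else 0) ≤
          ∑ p : Δ × Δ, ((if v = p.1 then 2 * pr (A (Sum.inl p)) else 0) +
            (if v = p.2 then 2 * pr (A (Sum.inl p)) else 0)) := by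
        refine Finset.sum_le_sum fun p _ => ?_
        have h2 := pr_nonneg (A (Sum.inl p))
        rw [hWl]
        by_cases e1 : v = p.1
        · rw [if_pos (by rw [e1]; simp), if_pos e1]
          split_ifs
          · linarith
          · linarith
        · by_cases e2 : v = p.2
          · rw [if_pos (by rw [e2]; simp), if_neg e1, if_pos e2]
            linarith
          · rw [if_neg (by simp [e1, e2]), if_neg e1, if_neg e2]
            linarith
      have h2 : ∑ p : Δ × Δ, ((if v = p.1 then 2 * pr (A (Sum.inl p)) else 0) +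
            (if v = p.2 then 2 * pr (A (Sum.inl p)) else 0)) =
          (∑ d' : Δ, 2 * pr (A (Sum.inl (v, d')))) + ∑ d' : Δ, 2 * pr (A (Sum.inl (d', v))) := by
        rw [Finset.sum_add_distrib, Fintype.sum_prod_type, Fintype.sum_prod_type]
        congr 1
        · rw [Finset.sum_comm]
          refine Finset.sum_congr rfl fun d' _ => ?_
          rw [Finset.sum_ite_eq univ v, if_pos (mem_univ _)]
        · refine Finset.sum_congr rfl fun d' _ => ?_
          rw [Finset.sum_ite_eq univ v, if_pos (mem_univ _)]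
      have h3 : ∑ d : Δ, (if v ∈ W (Sum.inr d) then 2 * pr (A (Sum.inr d)) else 0) =
          2 * pr (A (Sum.inr v)) := by
        have h4 : ∑ d : Δ, (if v ∈ W (Sum.inr d) then 2 * pr (A (Sum.inr d)) else 0) =
            ∑ d : Δ, (if v = d then 2 * pr (A (Sum.inr d)) else 0) := by
          refine Finset.sum_congr rfl fun d _ => ?_
          rw [hWr]
          simp only [mem_singleton]
        rw [h4, Finset.sum_ite_eq univ v, if_pos (mem_univ _)]
      have h4 : ∑ d' : Δ, 2 * pr (A (Sum.inl (d', v))) = ∑ d' : Δ, 2 * pr (A (Sum.inl (v, d'))) :=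
        Finset.sum_congr rfl fun d' _ => by rw [hsym]
      have h5 : ∑ d' : Δ, 2 * pr (A (Sum.inl (v, d'))) ≤ 2 * (1 / 128) := by
        rw [← Finset.mul_sum]
        exact mul_le_mul_of_nonneg_left (hprL v) (by norm_num)
      have h6 := hprR v
      rw [h3]
      rw [h2, h4] at h1
      linarith)
    (by
      intro x
      rw [card_eq]
      apply mul_le_mul_of_nonneg_right _ (Nat.cast_nonneg _)
      have h1 : ((W x).card : ℝ) ≤ 2 := by
        rcases x with p | d
        · rw [hWl]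
          exact_mod_cast Finset.card_le_two
        · rw [hWr, card_singleton]
          norm_num
      have h2 : (1 : ℝ) / 2 ≤ Real.exp (-(2 * (1 / 8) * ((W x).card : ℝ))) := by
        have h3 := Real.add_one_le_exp (-(2 * (1 / 8) * ((W x).card : ℝ)))
        linarith
      have h3 := pr_nonneg (A x)
      nlinarith)
  have hL : ∀ d d' : Δ, d ≠ d' → ¬ RR C N ρ d d' (ω d) (ω d') := by
    intro d d' hdd h
    apply hω (Sum.inl (d, d'))
    rw [mem_filter, hAl]
    exact ⟨mem_univ _, hdd, h⟩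
  have hR : ∀ d : Δ, ¬ SS C (C.cl d) (C.st d) (ω d) ∧
      ¬ S2 C N ρ D2 (C.cl d) (C.st d) (ω d) := by
    intro d
    rw [← not_or]
    intro h
    apply hω (Sum.inr d)
    rw [mem_filter, hAr]
    exact ⟨mem_univ _, h⟩
  refine ⟨ω, ⟨?_, ?_, ?_, ?_⟩⟩
  · intro d d' σ σ' j j' hdd hj hj' h1 h2
    rw [al_iff] at h1 h2
    rw [yy_eq, yy_eq, ps_eq, ps_eq]
    have m1 : yy1 C (C.cl d) (C.st d) (ω d) σ j ∈ Tr C (C.cl d) (C.st d) (ω d) :=
      mem_filter.2 ⟨mem_univ _, σ, j, hj, h1, Or.inl rfl⟩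
    have m2 : ps1 C (C.cl d) (C.st d) (ω d) σ (j + 1) ∈ Tr C (C.cl d) (C.st d) (ω d) :=
      mem_filter.2 ⟨mem_univ _, σ, j, hj, h1, Or.inr rfl⟩
    have m3 : yy1 C (C.cl d') (C.st d') (ω d') σ' j' ∈ Tr C (C.cl d') (C.st d') (ω d') :=
      mem_filter.2 ⟨mem_univ _, σ', j', hj', h2, Or.inl rfl⟩
    have m4 : ps1 C (C.cl d') (C.st d') (ω d') σ' (j' + 1) ∈
        Tr C (C.cl d') (C.st d') (ω d') :=
      mem_filter.2 ⟨mem_univ _, σ', j', hj', h2, Or.inr rfl⟩
    refine ⟨fun e => ?_, fun e => ?_, fun e => ?_⟩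
    · exact hL d d' hdd (Or.inl ⟨_, m1, by rw [e]; exact m3⟩)
    · exact hL d d' hdd (Or.inl ⟨_, m1, by rw [e]; exact m4⟩)
    · exact hL d d' hdd (Or.inl ⟨_, m2, by rw [e]; exact m4⟩)
  · intro d σ j j' hj _ hj'
    rw [yy_eq, ps_eq, yy_eq]
    refine ⟨fun e => ?_, fun hlt e => ?_⟩
    · exact (hR d).1 ⟨σ, j, j', hj, hj', Or.inl e⟩
    · exact (hR d).1 ⟨σ, j, j', hj, hj', Or.inr ⟨hlt, e⟩⟩
  · intro d d' σ σ' hdd h1 h2 hn
    rw [al_iff] at h1 h2
    rw [ps_eq, ps_eq] at hn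
    exact hL d d' hdd (Or.inr ⟨_, mem_filter.2 ⟨mem_univ _, σ, h1, rfl⟩, _,
      mem_filter.2 ⟨mem_univ _, σ', h2, rfl⟩, hn⟩)
  · intro d σ h1 x hx hn
    rw [al_iff] at h1
    rw [ps_eq] at hn
    exact (hR d).2 ⟨_, mem_filter.2 ⟨mem_univ _, σ, h1, rfl⟩, x, hx, hn⟩

end Pool.Agent.C4N.H81
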